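import Mathlib
import Pool.Agent.Lib.MP_72e75e_nt.Main

/-!
# There is no Ramanujan-type congruence modulo `2` for `6`-regular partitions

For all integers `A ≥ 1` and `B ≥ 0` the number `b₆(A n + B)` of partitions of `A n + B` without a
part divisible by `6` is odd for infinitely many `n ≥ 0`.
-/

namespace Pool.Agent.Results.MP_72e75e_nt.NoCongruenceModTwo

/-- For all `A ≥ 1` and `B ≥ 0` there are infinitely many `n ≥ 0` such that the number of
partitions of `A * n + B` none of whose parts is divisible by `6` is odd. In particular there is no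
pair `A ≥ 1`, `0 ≤ B < A` such that `b₆(A n + B)` is even for every `n ≥ 0`. -/
theorem result (A B : ℕ) (hA : 1 ≤ A) :
    {n : ℕ | Odd (Nat.Partition.restricted (A * n + B) (fun k => ¬ 6 ∣ k)).card}.Infinite :=
  SixReg.b6_odd_infinite hA B

end Pool.Agent.Results.MP_72e75e_nt.NoCongruenceModTwo
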